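import Pool.Agent.Lib.MP_8251dc_co.Defs

/-!
# Regular Boolean matrices with an enumeration of the row basis, and partial orders
-/

set_option autoImplicit false

open Finset

namespace RegBool

variable {m n r : ℕ}

theorem le_iff {v w : Fin n → Bool} : v ≤ w ↔ ∀ j, v j = true → w j = true := by
  constructor
  · intro h j hj
    have h1 := h j
    rw [hj] at h1
    exact top_le_iff.1 h1
  · intro h j
    cases hv : v j
    · exact bot_le
    · rw [h j hv]

theorem bmul_true {k : ℕ} (A : Fin m → Fin n → Bool) (B : Fin n → Fin k → Bool) (i : Fin m)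
    (j : Fin k) : bmul A B i j = true ↔ ∃ l, A i l = true ∧ B l j = true := by
  unfold bmul
  constructor
  · intro h
    by_contra hc
    push Not at hc
    have h1 : (Finset.univ.sup fun l => min (A i l) (B l j)) ≤ false := by
      refine Finset.sup_le fun l _ => ?_
      have := hc l
      cases h2 : A i l
      · simp
      · simp [this h2]
    rw [h] at h1
    exact absurd h1 (by decide)
  · rintro ⟨l, h1, h2⟩
    have h3 : min (A i l) (B l j) ≤ Finset.univ.sup fun l => min (A i l) (B l j) :=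
      Finset.le_sup (f := fun l => min (A i l) (B l j)) (Finset.mem_univ l)
    rw [h1, h2] at h3
    exact top_le_iff.1 h3

theorem regular_iff (A : Fin m → Fin n → Bool) :
    Regular A ↔ ∃ X : Fin n → Fin m → Bool, ∀ i j,
      (∃ l k, A i k = true ∧ X k l = true ∧ A l j = true) ↔ A i j = true := by
  unfold Regular
  refine exists_congr fun X => ?_
  constructor
  · intro h i j
    rw [← Bool.eq_iff_iff.1 (congrFun (congrFun h i) j), bmul_true]
    refine exists_congr fun l => ?_
    rw [bmul_true]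
    constructor
    · rintro ⟨k, h1, h2, h3⟩
      exact ⟨⟨k, h1, h2⟩, h3⟩
    · rintro ⟨⟨k, h1, h2⟩, h3⟩
      exact ⟨k, h1, h2, h3⟩
  · intro h
    funext i j
    rw [Bool.eq_iff_iff, ← h i j, bmul_true]
    refine exists_congr fun l => ?_
    rw [bmul_true]
    constructor
    · rintro ⟨⟨k, h1, h2⟩, h3⟩
      exact ⟨k, h1, h2, h3⟩
    · rintro ⟨k, h1, h2, h3⟩
      exact ⟨⟨k, h1, h2⟩, h3⟩

theorem mem_basisRows {A : Fin m → Fin n → Bool} {v : Fin n → Bool} : v ∈ basisRows A ↔
    (∃ i, A i = v) ∧ ∃ j, v j = true ∧ ∀ i, A i < v → A i j ≠ true := by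
  classical
  unfold basisRows
  rw [mem_filter]
  push Not
  simp only [mem_univ, true_and]

/-- The principal down-set. -/
def dn (p : Fin r → Fin r → Bool) (l : Fin r) : Finset (Fin r) := univ.filter fun i => p i l = true

/-- The principal up-set. -/
def up (p : Fin r → Fin r → Bool) (l : Fin r) : Finset (Fin r) := univ.filter fun i => p l i = true

theorem mem_dn {p : Fin r → Fin r → Bool} {l i : Fin r} : i ∈ dn p l ↔ p i l = true := by
  unfold dn
  rw [mem_filter]
  simp only [mem_univ, true_and]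

theorem mem_up {p : Fin r → Fin r → Bool} {l i : Fin r} : i ∈ up p l ↔ p l i = true := by
  unfold up
  rw [mem_filter]
  simp only [mem_univ, true_and]

/-- The rows `f` are down-sets, among them the principal ones. -/
def IsF (p : Fin r → Fin r → Bool) (f : Fin m → Finset (Fin r)) : Prop :=
  (∀ i, ∀ a b, p a b = true → b ∈ f i → a ∈ f i) ∧ ∀ l, ∃ i, f i = dn p l

/-- The columns `g` are up-sets, among them the principal ones. -/
def IsG (p : Fin r → Fin r → Bool) (g : Fin n → Finset (Fin r)) : Prop :=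
  (∀ j, ∀ a b, p a b = true → a ∈ g j → b ∈ g j) ∧ ∀ l, ∃ j, g j = up p l

/-- The matrix. -/
def mat (f : Fin m → Finset (Fin r)) (g : Fin n → Finset (Fin r)) : Fin m → Fin n → Bool :=
  fun i j => decide (∃ l, l ∈ f i ∧ l ∈ g j)

/-- The basis rows. -/
def row (g : Fin n → Finset (Fin r)) (l : Fin r) : Fin n → Bool := fun j => decide (l ∈ g j)

theorem mat_true {f : Fin m → Finset (Fin r)} {g : Fin n → Finset (Fin r)} {i : Fin m} {j : Fin n} :
    mat f g i j = true ↔ ∃ l, l ∈ f i ∧ l ∈ g j := by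
  unfold mat
  rw [decide_eq_true_eq]

theorem row_true {g : Fin n → Finset (Fin r)} {l : Fin r} {j : Fin n} :
    row g l j = true ↔ l ∈ g j := by
  unfold row
  rw [decide_eq_true_eq]

section forward

variable {p : Fin r → Fin r → Bool} {f : Fin m → Finset (Fin r)} {g : Fin n → Finset (Fin r)}

theorem row_le (hp : p ∈ posets r) (hg : IsG p g) (a b : Fin r) :
    row g a ≤ row g b ↔ p a b = true := by
  obtain ⟨-, h1, h2, h3⟩ := mem_filter.1 hp
  rw [le_iff]
  constructor
  · intro h
    obtain ⟨j, hj⟩ := hg.2 a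
    have h4 := h j (by rw [row_true, hj, mem_up]; exact h1 a)
    rw [row_true, hj, mem_up] at h4
    exact h4
  · intro h j hj
    rw [row_true] at hj ⊢
    exact hg.1 j a b h hj

theorem row_inj (hp : p ∈ posets r) (hg : IsG p g) : Function.Injective (row g) := by
  intro a b hab
  obtain ⟨-, h1, h2, h3⟩ := mem_filter.1 hp
  exact h2 a b ((row_le hp hg a b).1 hab.le) ((row_le hp hg b a).1 hab.ge)

theorem mem_f (hp : p ∈ posets r) (hf : IsF p f) (hg : IsG p g) (l : Fin r) (i : Fin m) :
    row g l ≤ mat f g i ↔ l ∈ f i := by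
  obtain ⟨-, h1, h2, h3⟩ := mem_filter.1 hp
  rw [le_iff]
  constructor
  · intro h
    obtain ⟨j, hj⟩ := hg.2 l
    have h4 := h j (by rw [row_true, hj, mem_up]; exact h1 l)
    rw [mat_true] at h4
    obtain ⟨l', h5, h6⟩ := h4
    rw [hj, mem_up] at h6
    exact hf.1 i l l' h6 h5
  · intro h j hj
    rw [row_true] at hj
    rw [mat_true]
    exact ⟨l, h, hj⟩

theorem exists_row (hp : p ∈ posets r) (hf : IsF p f) (hg : IsG p g) (l : Fin r) :
    ∃ i, f i = dn p l ∧ mat f g i = row g l := by
  obtain ⟨-, h1, h2, h3⟩ := mem_filter.1 hp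
  obtain ⟨i, hi⟩ := hf.2 l
  refine ⟨i, hi, ?_⟩
  funext j
  rw [Bool.eq_iff_iff, mat_true, row_true]
  constructor
  · rintro ⟨l', h4, h5⟩
    rw [hi, mem_dn] at h4
    exact hg.1 j l' l h4 h5
  · intro h
    exact ⟨l, by rw [hi, mem_dn]; exact h1 l, h⟩

theorem basis_mat (hp : p ∈ posets r) (hf : IsF p f) (hg : IsG p g) :
    univ.image (row g) = basisRows (mat f g) := by
  obtain ⟨-, h1, h2, h3⟩ := mem_filter.1 hp
  ext v
  rw [mem_image, mem_basisRows]
  constructor
  · rintro ⟨l, -, rfl⟩
    obtain ⟨i, -, hi⟩ := exists_row hp hf hg l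
    refine ⟨⟨i, hi⟩, ?_⟩
    obtain ⟨j, hj⟩ := hg.2 l
    refine ⟨j, by rw [row_true, hj, mem_up]; exact h1 l, ?_⟩
    intro i' hlt htrue
    rw [mat_true] at htrue
    obtain ⟨l', h4, h5⟩ := htrue
    rw [hj, mem_up] at h5
    have h6 : row g l ≤ mat f g i' :=
      ((row_le hp hg l l').2 h5).trans ((mem_f hp hf hg l' i').2 h4)
    exact absurd (lt_of_le_of_lt h6 hlt) (lt_irrefl _)
  · rintro ⟨⟨i, rfl⟩, j, hj, hlt⟩
    rw [mat_true] at hj
    obtain ⟨l, h4, h5⟩ := hj
    refine ⟨l, mem_univ _, ?_⟩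
    by_contra hne
    obtain ⟨i', -, hi'⟩ := exists_row hp hf hg l
    refine hlt i' ?_ ?_
    · rw [hi']
      exact lt_of_le_of_ne ((mem_f hp hf hg l i).2 h4) hne
    · rw [hi', row_true]
      exact h5

theorem regular_mat (hp : p ∈ posets r) (hf : IsF p f) (hg : IsG p g) : Regular (mat f g) := by
  classical
  obtain ⟨-, h1, h2, h3⟩ := mem_filter.1 hp
  rw [regular_iff]
  refine ⟨fun j k => decide (∃ l, g j = up p l ∧ f k = dn p l), fun i j => ?_⟩
  simp only [decide_eq_true_eq]
  rw [mat_true]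
  constructor
  · rintro ⟨k, j', h4, ⟨l, h5, h6⟩, h7⟩
    rw [mat_true] at h4 h7
    obtain ⟨a, h8, h9⟩ := h4
    obtain ⟨b, h10, h11⟩ := h7
    rw [h5, mem_up] at h9
    rw [h6, mem_dn] at h10
    exact ⟨l, hf.1 i l a h9 h8, hg.1 j b l h10 h11⟩
  · rintro ⟨l, h4, h5⟩
    obtain ⟨j', hj'⟩ := hg.2 l
    obtain ⟨k, hk⟩ := hf.2 l
    refine ⟨k, j', ?_, ⟨l, hj', hk⟩, ?_⟩
    · rw [mat_true]
      exact ⟨l, h4, by rw [hj', mem_up]; exact h1 l⟩
    · rw [mat_true]
      exact ⟨l, by rw [hk, mem_dn]; exact h1 l, h5⟩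

end forward

section backward

variable {A : Fin m → Fin n → Bool} {e : Fin r → Fin n → Bool}

open Classical in
/-- The order of the basis rows. -/
noncomputable def ord (e : Fin r → Fin n → Bool) : Fin r → Fin r → Bool := fun a b => decide (e a ≤ e b)

open Classical in
/-- The sets of the basis rows below a row. -/
noncomputable def lo (A : Fin m → Fin n → Bool) (e : Fin r → Fin n → Bool) : Fin m → Finset (Fin r) :=
  fun i => univ.filter fun l => e l ≤ A i

/-- The sets of the basis rows with a one in a column. -/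
def co (e : Fin r → Fin n → Bool) : Fin n → Finset (Fin r) := fun j => univ.filter fun l => e l j = true

theorem ord_true {a b : Fin r} : ord e a b = true ↔ e a ≤ e b := by
  classical
  unfold ord
  exact decide_eq_true_iff

theorem mem_lo {l : Fin r} {i : Fin m} : l ∈ lo A e i ↔ e l ≤ A i := by
  classical
  unfold lo
  rw [mem_filter]
  simp only [mem_univ, true_and]

theorem mem_co {l : Fin r} {j : Fin n} : l ∈ co e j ↔ e l j = true := by
  unfold co
  rw [mem_filter]
  simp only [mem_univ, true_and]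

theorem ord_mem (he : Function.Injective e) : ord e ∈ posets r := by
  refine mem_filter.2 ⟨mem_univ _, fun i => ?_, fun i j h1 h2 => ?_, fun i j k h1 h2 => ?_⟩
  · exact ord_true.2 le_rfl
  · exact he (le_antisymm (ord_true.1 h1) (ord_true.1 h2))
  · exact ord_true.2 ((ord_true.1 h1).trans (ord_true.1 h2))

/-- Every row is the union of the basis rows below it. -/
theorem row_union (hA : univ.image e = basisRows A) (j : Fin n) (v : Fin n → Bool) :
    (∃ i, A i = v) → v j = true → ∃ l, e l ≤ v ∧ e l j = true := by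
  induction v using (Finite.to_wellFoundedLT (α := Fin n → Bool)).wf.induction with
  | _ v ih =>
    intro hi hj
    by_cases hv : v ∈ basisRows A
    · rw [← hA, mem_image] at hv
      obtain ⟨l, -, rfl⟩ := hv
      exact ⟨l, le_rfl, hj⟩
    · rw [mem_basisRows] at hv
      push Not at hv
      obtain ⟨i', h1, h2⟩ := hv hi j hj
      obtain ⟨l, h3, h4⟩ := ih (A i') h1 ⟨i', rfl⟩ h2
      exact ⟨l, h3.trans h1.le, h4⟩

theorem isF_lo (hA : univ.image e = basisRows A) : IsF (ord e) (lo A e) := by
  refine ⟨fun i a b hab hb => ?_, fun l => ?_⟩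
  · rw [mem_lo] at hb ⊢
    exact (ord_true.1 hab).trans hb
  · have h1 : e l ∈ basisRows A := by
      rw [← hA]
      exact mem_image_of_mem _ (mem_univ _)
    obtain ⟨⟨i, hi⟩, -⟩ := mem_basisRows.1 h1
    refine ⟨i, ?_⟩
    ext l'
    rw [mem_lo, mem_dn, ord_true, hi]

theorem isG_co (hR : Regular A) (hA : univ.image e = basisRows A) : IsG (ord e) (co e) := by
  refine ⟨fun j a b hab ha => ?_, fun l => ?_⟩
  · rw [mem_co] at ha ⊢
    exact le_iff.1 (ord_true.1 hab) j ha
  · have hrow : ∀ l, ∃ i, A i = e l := by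
      intro l
      have h1 : e l ∈ basisRows A := by
        rw [← hA]
        exact mem_image_of_mem _ (mem_univ _)
      exact (mem_basisRows.1 h1).1
    have h1 : e l ∈ basisRows A := by
      rw [← hA]
      exact mem_image_of_mem _ (mem_univ _)
    obtain ⟨⟨i, hi⟩, j0, hj0, hlt⟩ := mem_basisRows.1 h1
    rw [regular_iff] at hR
    obtain ⟨X, hX⟩ := hR
    obtain ⟨k, j, h2, h3, h4⟩ := (hX i j0).2 (by rw [hi]; exact hj0)
    -- every row with a one in the column `j` is above the row `k`
    have h5 : ∀ i', A i' j = true → A k ≤ A i' := by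
      intro i' h6
      rw [le_iff]
      intro j' h7
      exact (hX i' j').1 ⟨k, j, h6, h3, h7⟩
    have h8 : A k = e l := by
      by_contra hne
      refine hlt k (lt_of_le_of_ne ?_ hne) h4
      rw [← hi]
      exact h5 i h2
    refine ⟨j, ?_⟩
    ext l'
    rw [mem_co, mem_up, ord_true]
    constructor
    · intro h6
      obtain ⟨i', hi'⟩ := hrow l'
      rw [← h8, ← hi']
      exact h5 i' (by rw [hi']; exact h6)
    · intro h6
      refine le_iff.1 h6 j ?_
      rw [← hi]
      exact h2

end backward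

open Classical in
/-- Partial orders with down-sets and up-sets. -/
noncomputable def S1 (m n r : ℕ) : Finset ((Fin r → Fin r → Bool) × (Fin m → Finset (Fin r)) ×
    (Fin n → Finset (Fin r))) :=
  univ.filter fun x => x.1 ∈ posets r ∧ IsF x.1 x.2.1 ∧ IsG x.1 x.2.2

open Classical in
/-- Regular matrices with an enumeration of the row basis. -/
noncomputable def S2 (m n r : ℕ) : Finset ((Fin m → Fin n → Bool) × (Fin r → Fin n → Bool)) :=
  univ.filter fun y => Regular y.1 ∧ Function.Injective y.2 ∧ univ.image y.2 = basisRows y.1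

theorem card_S1_eq_card_S2 (m n r : ℕ) : (S1 m n r).card = (S2 m n r).card := by
  classical
  refine card_bij' (fun x _ => (mat x.2.1 x.2.2, row x.2.2))
    (fun y _ => (ord y.2, lo y.1 y.2, co y.2)) ?_ ?_ ?_ ?_
  · rintro ⟨p, f, g⟩ hx
    obtain ⟨-, hp, hf, hg⟩ := mem_filter.1 hx
    refine mem_filter.2 ⟨mem_univ _, regular_mat hp hf hg, row_inj hp hg, ?_⟩
    rw [← basis_mat hp hf hg]
  · rintro ⟨A, e⟩ hy
    obtain ⟨-, hR, he, hA⟩ := mem_filter.1 hy
    have hA' : univ.image e = basisRows A := by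
      rw [← hA]
    exact mem_filter.2 ⟨mem_univ _, ord_mem he, isF_lo hA', isG_co hR hA'⟩
  · rintro ⟨p, f, g⟩ hx
    obtain ⟨-, hp, hf, hg⟩ := mem_filter.1 hx
    refine Prod.ext ?_ (Prod.ext ?_ ?_)
    · funext a b
      exact Bool.eq_iff_iff.2 (ord_true.trans (row_le hp hg a b))
    · funext i
      ext l
      exact mem_lo.trans (mem_f hp hf hg l i)
    · funext j
      ext l
      exact mem_co.trans row_true
  · rintro ⟨A, e⟩ hy
    obtain ⟨-, hR, he, hA⟩ := mem_filter.1 hy
    have hA' : univ.image e = basisRows A := by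
      rw [← hA]
    refine Prod.ext ?_ ?_
    · funext i j
      rw [Bool.eq_iff_iff]
      change mat (lo A e) (co e) i j = true ↔ A i j = true
      rw [mat_true]
      constructor
      · rintro ⟨l, h1, h2⟩
        rw [mem_lo] at h1
        rw [mem_co] at h2
        exact le_iff.1 h1 j h2
      · intro h
        obtain ⟨l, h1, h2⟩ := row_union hA' j (A i) ⟨i, rfl⟩ h
        exact ⟨l, mem_lo.2 h1, mem_co.2 h2⟩
    · funext l j
      exact Bool.eq_iff_iff.2 (row_true.trans mem_co)

end RegBool
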