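import Mathlib

/-!
# Regular Boolean matrices, row rank, partial orders: definitions
-/

set_option autoImplicit false

open Finset

namespace RegBool

/-- The Boolean matrix product: the entry `(i, j)` is `max_l min (A i l) (B l j)`. -/
noncomputable def bmul {m n k : ℕ} (A : Fin m → Fin n → Bool) (B : Fin n → Fin k → Bool) :
    Fin m → Fin k → Bool :=
  fun i j => Finset.univ.sup fun l => min (A i l) (B l j)

/-- Regular Boolean matrices: `A X A = A` for some `X`. -/
def Regular {m n : ℕ} (A : Fin m → Fin n → Bool) : Prop :=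
  ∃ X : Fin n → Fin m → Bool, bmul (bmul A X) A = A

/-- `R(m, n)`, the number of regular `m × n` Boolean matrices; `R(n) = R(n, n)`. -/
noncomputable def R (m n : ℕ) : ℕ := Nat.card {A : Fin m → Fin n → Bool // Regular A}

open Classical in
/-- The row basis: the rows of `A` which are not the union of the rows strictly below them. -/
noncomputable def basisRows {m n : ℕ} (A : Fin m → Fin n → Bool) : Finset (Fin n → Bool) :=
  Finset.univ.filter fun v =>
    (∃ i, A i = v) ∧ ¬ ∀ j, v j = true → ∃ i, A i < v ∧ A i j = true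

/-- The row rank. -/
noncomputable def rowRank {m n : ℕ} (A : Fin m → Fin n → Bool) : ℕ := (basisRows A).card

/-- The partial orders on `{0, …, r-1}`, as Boolean relations (`p i j` means `i ≤ j`). -/
def posets (r : ℕ) : Finset (Fin r → Fin r → Bool) :=
  Finset.univ.filter fun p => (∀ i, p i i = true) ∧ (∀ i j, p i j = true → p j i = true → i = j) ∧
    ∀ i j k, p i j = true → p j k = true → p i k = true

/-- The number of down-sets of a partial order. -/
def downs {r : ℕ} (p : Fin r → Fin r → Bool) : ℕ :=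
  (Finset.univ.filter fun S : Finset (Fin r) => ∀ i j, p i j = true → j ∈ S → i ∈ S).card

/-- The number of the automorphisms of a partial order. -/
def aut {r : ℕ} (p : Fin r → Fin r → Bool) : ℕ :=
  (Finset.univ.filter fun σ : Equiv.Perm (Fin r) => ∀ i j, p (σ i) (σ j) = p i j).card

/-- The row basis of `A`, ordered by inclusion, is isomorphic to the partial order `p`. -/
def HasType {m n r : ℕ} (A : Fin m → Fin n → Bool) (p : Fin r → Fin r → Bool) : Prop :=
  ∃ e : Fin r → Fin n → Bool, Function.Injective e ∧ Finset.univ.image e = basisRows A ∧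
    ∀ i j, p i j = true ↔ e i ≤ e j

/-- `∑_{j ≤ r} (-1)^j C(r, j) (u - j)^n`, the number of the maps from an `n`-set to a `u`-set which
take `r` given values. -/
def hit (n u r : ℕ) : ℤ := ∑ j ∈ Finset.range (r + 1), (-1) ^ j * (r.choose j : ℤ) * ((u : ℤ) - j) ^ n

/-- `w(q, r) = ∑_{j ≤ r} (-1)^j C(r, j) (-j)^q`. -/
def w (q r : ℕ) : ℤ := ∑ j ∈ Finset.range (r + 1), (-1) ^ j * (r.choose j : ℤ) * (-(j : ℤ)) ^ q

/-- `M(r, q)`, the sum of the `q`-th powers of the numbers of down-sets of the partial orders on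
`{0, …, r-1}`. -/
def M (r q : ℕ) : ℕ := ∑ p ∈ posets r, downs p ^ q

/-- The double sums `∑_{r ≤ m} (1 / r!) ∑_{k ≤ m} ∑_{l ≤ n} C(m, k) C(n, l) w(m-k, r) w(n-l, r) c(r, k+l)`. -/
noncomputable def form (c : ℕ → ℕ → ℚ) (m n : ℕ) : ℚ :=
  ∑ r ∈ Finset.range (m + 1), (∑ k ∈ Finset.range (m + 1), ∑ l ∈ Finset.range (n + 1),
    (m.choose k : ℚ) * (n.choose l : ℚ) * (w (m - k) r : ℚ) * (w (n - l) r : ℚ) * c r (k + l)) /
      (r.factorial : ℚ)

/-- The polynomial `∏_{i < t} (z² - i²)`. -/
noncomputable def cf (t : ℕ) : Polynomial ℤ :=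
  ∏ i ∈ Finset.range t, (Polynomial.X ^ 2 - Polynomial.C ((i : ℤ) ^ 2))

end RegBool
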