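import Pool.Agent.Lib.MP_8251dc_co.Type

/-!
# The number of regular Boolean matrices and the moments of the numbers of down-sets
-/

set_option autoImplicit false

open Finset

namespace RegBool

theorem w_eq_fwd (q r : ℕ) : w q r = (fwdDiff (1 : ℤ))^[r] (fun x : ℤ => x ^ q) (-(r : ℤ)) := by
  rw [fwdDiff_iter_eq_sum_shift, ← sum_range_reflect]
  unfold w
  refine sum_congr rfl fun j hj => ?_
  have hjr : j ≤ r := Nat.lt_succ_iff.1 (mem_range.1 hj)
  have h1 : r + 1 - 1 - j = r - j := by omega
  rw [h1, Nat.sub_sub_self hjr, Nat.choose_symm hjr, smul_eq_mul, nsmul_eq_mul, mul_one,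
    Nat.cast_sub hjr]
  congr 2
  ring

theorem w_zero {q r : ℕ} (h : q < r) : w q r = 0 := by
  rw [w_eq_fwd, fwdDiff_iter_pow_eq_zero_of_lt h]
  rfl

theorem w_self (r : ℕ) : w r r = r.factorial := by
  rw [w_eq_fwd, fwdDiff_iter_eq_factorial]
  rfl

theorem hit_expand (m u r : ℕ) : hit m u r =
    ∑ k ∈ range (m + 1), (m.choose k : ℤ) * w (m - k) r * (u : ℤ) ^ k := by
  unfold hit w
  have h1 : ∀ j ∈ range (r + 1), (-1 : ℤ) ^ j * (r.choose j : ℤ) * ((u : ℤ) - j) ^ m =
      ∑ k ∈ range (m + 1), (-1 : ℤ) ^ j * (r.choose j : ℤ) *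
        ((u : ℤ) ^ k * (-(j : ℤ)) ^ (m - k) * (m.choose k : ℤ)) := by
    intro j _
    rw [sub_eq_add_neg, add_pow, mul_sum]
  rw [sum_congr rfl h1, sum_comm]
  refine sum_congr rfl fun k _ => ?_
  rw [mul_sum, sum_mul]
  exact sum_congr rfl fun j _ => by ring

theorem formula (m n : ℕ) : (R m n : ℚ) = form (fun r q => (M r q : ℚ)) m n := by
  rw [R_formula]
  unfold form
  refine sum_congr rfl fun r _ => ?_
  congr 1
  have h1 : ∀ p ∈ posets r, (hit m (downs p) r : ℚ) * (hit n (downs p) r : ℚ) =
      ∑ k ∈ range (m + 1), ∑ l ∈ range (n + 1), (m.choose k : ℚ) * (n.choose l : ℚ) *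
        (w (m - k) r : ℚ) * (w (n - l) r : ℚ) * ((downs p : ℚ) ^ (k + l)) := by
    intro p _
    rw [hit_expand, hit_expand]
    push_cast
    rw [sum_mul_sum]
    refine sum_congr rfl fun k _ => sum_congr rfl fun l _ => ?_
    rw [pow_add]
    ring
  rw [sum_congr rfl h1, sum_comm]
  refine sum_congr rfl fun k _ => ?_
  rw [sum_comm]
  refine sum_congr rfl fun l _ => ?_
  rw [← mul_sum]
  unfold M
  push_cast
  rfl

theorem form_sub (c d : ℕ → ℕ → ℚ) (m n : ℕ) :
    form (fun r q => c r q - d r q) m n = form c m n - form d m n := by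
  unfold form
  rw [← sum_sub_distrib]
  refine sum_congr rfl fun r _ => ?_
  rw [← sub_div, ← sum_sub_distrib]
  congr 1
  refine sum_congr rfl fun k _ => ?_
  rw [← sum_sub_distrib]
  exact sum_congr rfl fun l _ => by ring

/-- The triangular system. -/
theorem eq_zero_of_form (N : ℕ) (d : ℕ → ℕ → ℚ)
    (h : ∀ m n, m ≤ n → m + n ≤ N → form d m n = 0) :
    ∀ s, s ≤ N → ∀ r q, 2 * r + q = s → d r q = 0 := by
  intro s
  induction s using Nat.strong_induction_on with
  | _ s ihs =>
    intro hs r
    induction r using Nat.strong_induction_on with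
    | _ r ihr =>
      intro q hq
      have h0 := h r (r + q) (by omega) (by omega)
      have hr1 : (r.factorial : ℚ) ≠ 0 := by exact_mod_cast r.factorial_ne_zero
      unfold form at h0
      rw [sum_range_succ, sum_eq_zero, zero_add] at h0
      · rw [div_eq_zero_iff, or_iff_left hr1, sum_eq_single 0, sum_eq_single q] at h0
        · rw [Nat.sub_zero, Nat.add_sub_cancel, w_self, zero_add, Nat.choose_zero_right] at h0
          have h1 : ((r + q).choose q : ℚ) ≠ 0 := by
            exact_mod_cast (Nat.choose_pos (by omega)).ne'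
          push_cast at h0
          have h2 : (1 : ℚ) * ((r + q).choose q : ℚ) * (r.factorial : ℚ) * (r.factorial : ℚ) ≠ 0 :=
            mul_ne_zero (mul_ne_zero (mul_ne_zero one_ne_zero h1) hr1) hr1
          exact (mul_eq_zero.1 h0).resolve_left h2
        · intro l hl hlq
          rcases Nat.lt_or_ge q l with h1 | h1
          · rw [w_zero (q := r + q - l) (r := r) (by
              have := mem_range.1 hl
              omega), Int.cast_zero, mul_zero, zero_mul]
          · rw [ihs (2 * r + (0 + l)) (by omega) (by omega) r (0 + l) rfl, mul_zero]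
        · intro h1
          exact absurd (mem_range.2 (by omega)) h1
        · intro k hk hk0
          refine sum_eq_zero fun l _ => ?_
          rw [w_zero (q := r - k) (r := r) (by
            have := mem_range.1 hk
            omega), Int.cast_zero, mul_zero, zero_mul, zero_mul]
        · intro h1
          exact absurd (mem_range.2 (by omega)) h1
      · intro r' hr'
        rw [mem_range] at hr'
        rw [sum_eq_zero, zero_div]
        intro k hk
        refine sum_eq_zero fun l hl => ?_
        rw [mem_range] at hk hl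
        by_cases h1 : r - k < r'
        · rw [w_zero h1, Int.cast_zero, mul_zero, zero_mul, zero_mul]
        · by_cases h2 : r + q - l < r'
          · rw [w_zero h2, Int.cast_zero, mul_zero, zero_mul]
          · rcases Nat.lt_or_ge (2 * r' + (k + l)) s with h3 | h3
            · rw [ihs _ h3 (by omega) r' (k + l) rfl, mul_zero]
            · rw [ihr r' hr' (k + l) (by omega), mul_zero]

theorem unique (N : ℕ) (c : ℕ → ℕ → ℚ)
    (h : ∀ m n, m ≤ n → m + n ≤ N → (R m n : ℚ) = form c m n) (r q : ℕ) (hN : 2 * r + q ≤ N) :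
    c r q = M r q := by
  have h1 := eq_zero_of_form N (fun r q => c r q - (M r q : ℚ)) (fun m n hmn hN' => by
    rw [form_sub, ← h m n hmn hN', ← formula, sub_self]) (2 * r + q) hN r q rfl
  exact sub_eq_zero.1 h1

end RegBool
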