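import Pool.Agent.Lib.MP_8251dc_co.Defs

/-!
# Functions which take `r` given values
-/

set_option autoImplicit false

open Finset

namespace RegBool

/-- The number of functions `Fin n → Y` which take `r` given values is `hit n |Y| r`. -/
theorem card_hit {Y : Type} [Fintype Y] [DecidableEq Y] (n r : ℕ) (y : Fin r → Y)
    (hy : Function.Injective y) :
    ((univ.filter fun f : Fin n → Y => ∀ l, ∃ i, f i = y l).card : ℤ) = hit n (Fintype.card Y) r := by
  classical
  have h1 : (univ.filter fun f : Fin n → Y => ∀ l, ∃ i, f i = y l) =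
      (univ : Finset (Fin r)).inf fun l => (univ.filter fun f : Fin n → Y => ∀ i, f i ≠ y l)ᶜ := by
    ext f
    simp only [mem_filter, mem_univ, true_and, Finset.mem_inf, mem_compl, not_forall, not_not,
      forall_const]
  rw [h1, Finset.inclusion_exclusion_card_inf_compl]
  have h2 : ∀ t : Finset (Fin r),
      (t.inf fun l => univ.filter fun f : Fin n → Y => ∀ i, f i ≠ y l).card =
        (Fintype.card Y - t.card) ^ n := by
    intro t
    have h3 : (t.inf fun l => univ.filter fun f : Fin n → Y => ∀ i, f i ≠ y l) =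
        Fintype.piFinset fun _ : Fin n => (t.image y)ᶜ := by
      ext f
      simp only [Finset.mem_inf, mem_filter, mem_univ, true_and, Fintype.mem_piFinset, mem_compl,
        mem_image, not_exists, not_and]
      constructor
      · intro h i l hl he
        exact h l hl i he.symm
      · intro h l hl i he
        exact h i l hl he.symm
    rw [h3, Fintype.card_piFinset, prod_const, card_univ, Fintype.card_fin, card_compl,
      card_image_of_injective _ hy]
  have h4 : ∀ t : Finset (Fin r), t.card ≤ Fintype.card Y := by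
    intro t
    rw [← card_image_of_injective t hy]
    exact card_le_univ _
  have h5 : ∀ t ∈ (univ : Finset (Fin r)).powerset,
      (-1 : ℤ) ^ t.card * ((t.inf fun l => univ.filter fun f : Fin n → Y => ∀ i, f i ≠ y l).card : ℤ) =
        (-1) ^ t.card * ((Fintype.card Y : ℤ) - t.card) ^ n := by
    intro t _
    rw [h2, Nat.cast_pow, Nat.cast_sub (h4 t)]
  rw [sum_congr rfl h5,
    Finset.sum_powerset_apply_card (fun j => (-1 : ℤ) ^ j * ((Fintype.card Y : ℤ) - j) ^ n)]
  unfold hit
  rw [card_univ, Fintype.card_fin]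
  refine sum_congr rfl fun j _ => ?_
  rw [nsmul_eq_mul]
  ring

/-- The same for the elements of a finite set. -/
theorem card_hit_mem {Z : Type} [Fintype Z] [DecidableEq Z] (n r : ℕ) (S : Finset Z)
    (y : Fin r → Z) (hy : Function.Injective y) (hS : ∀ l, y l ∈ S) :
    ((univ.filter fun f : Fin n → Z => (∀ i, f i ∈ S) ∧ ∀ l, ∃ i, f i = y l).card : ℤ) =
      hit n S.card r := by
  classical
  have h := card_hit (Y := {z // z ∈ S}) n r (fun l => ⟨y l, hS l⟩)
    (fun a b hab => hy (congrArg Subtype.val hab))
  rw [Fintype.card_coe] at h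
  rw [← h]
  congr 1
  refine (card_bij' (fun f _ i => (f i : Z)) (fun f hf i => ⟨f i, (mem_filter.1 hf).2.1 i⟩)
    ?_ ?_ ?_ ?_).symm
  · intro f hf
    rw [mem_filter] at hf ⊢
    refine ⟨mem_univ _, fun i => (f i).2, fun l => ?_⟩
    obtain ⟨i, hi⟩ := hf.2 l
    exact ⟨i, congrArg Subtype.val hi⟩
  · intro f hf
    rw [mem_filter] at hf ⊢
    refine ⟨mem_univ _, fun l => ?_⟩
    obtain ⟨i, hi⟩ := hf.2.2 l
    exact ⟨i, Subtype.ext hi⟩
  · intro f _
    rfl
  · intro f _
    rfl

end RegBool
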