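import Pool.Agent.Lib.MP_8251dc_co.Final

/-!
# The number of partial orders from the numbers of regular Boolean matrices
-/

set_option autoImplicit false

open Finset

namespace RegBool

theorem hit_zero {m u r : ℕ} (h : m < r) : hit m u r = 0 := by
  rw [hit_expand]
  exact sum_eq_zero fun k _ => by rw [w_zero (by omega), mul_zero, zero_mul]

theorem R_formula' {m n t : ℕ} (h : m + n ≤ 2 * t) : (R m n : ℚ) = ∑ r ∈ range (t + 1),
    (∑ p ∈ posets r, (hit m (downs p) r : ℚ) * (hit n (downs p) r : ℚ)) / r.factorial := by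
  rw [R_formula]
  have h1 : ∀ k ≤ 2 * t, (∀ r, k < r → m < r ∨ n < r) → ∑ r ∈ range (k + 1),
      (∑ p ∈ posets r, (hit m (downs p) r : ℚ) * (hit n (downs p) r : ℚ)) / (r.factorial : ℚ) =
      ∑ r ∈ range (2 * t + 1),
      (∑ p ∈ posets r, (hit m (downs p) r : ℚ) * (hit n (downs p) r : ℚ)) / (r.factorial : ℚ) := by
    intro k hk hk2
    refine sum_subset (fun r hr => ?_) fun r _ hr => ?_
    · rw [mem_range] at hr ⊢
      omega
    · rw [mem_range, not_lt] at hr
      rw [sum_eq_zero, zero_div]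
      intro p _
      rcases hk2 r (by omega) with h2 | h2
      · rw [hit_zero h2, Int.cast_zero, zero_mul]
      · rw [hit_zero h2, Int.cast_zero, mul_zero]
  rw [h1 m (by omega) (fun r hr => Or.inl hr), h1 t (by omega) (fun r hr => by omega)]

theorem conv (d u r : ℕ) : ∑ n ∈ range (d + 1), (-1 : ℤ) ^ n * (d.choose n : ℤ) *
      (hit (d - n) u r * hit n u r) =
    ∑ i ∈ range (r + 1), ∑ j ∈ range (r + 1), (-1) ^ i * (r.choose i : ℤ) *
      ((-1) ^ j * (r.choose j : ℤ)) * ((j : ℤ) - i) ^ d := by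
  have h1 : ∀ n ∈ range (d + 1), (-1 : ℤ) ^ n * (d.choose n : ℤ) *
      (hit (d - n) u r * hit n u r) = ∑ i ∈ range (r + 1), ∑ j ∈ range (r + 1),
      (-1) ^ i * (r.choose i : ℤ) * ((-1) ^ j * (r.choose j : ℤ)) *
        ((-((u : ℤ) - j)) ^ n * ((u : ℤ) - i) ^ (d - n) * (d.choose n : ℤ)) := by
    intro n _
    unfold hit
    rw [sum_mul_sum, mul_sum]
    refine sum_congr rfl fun i _ => ?_
    rw [mul_sum]
    refine sum_congr rfl fun j _ => ?_
    rw [neg_pow ((u : ℤ) - j)]
    ring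
  rw [sum_congr rfl h1, sum_comm]
  refine sum_congr rfl fun i _ => ?_
  rw [sum_comm]
  refine sum_congr rfl fun j _ => ?_
  rw [← mul_sum, ← add_pow]
  congr 2
  ring

theorem natDegree_cf (t : ℕ) : (cf t).natDegree < 2 * t + 1 := by
  unfold cf
  refine Nat.lt_succ_of_le ((Polynomial.natDegree_prod_le _ _).trans ?_)
  have h1 : ∀ i ∈ range t, (Polynomial.X ^ 2 - Polynomial.C ((i : ℤ) ^ 2)).natDegree ≤ 2 := by
    intro i _
    exact (Polynomial.natDegree_X_pow_sub_C (R := ℤ)).le
  refine (sum_le_card_nsmul _ _ 2 h1).trans ?_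
  rw [card_range, smul_eq_mul, mul_comm]

theorem eval_cf (t : ℕ) (z : ℤ) : (cf t).eval z = ∏ i ∈ range t, (z ^ 2 - (i : ℤ) ^ 2) := by
  unfold cf
  rw [Polynomial.eval_prod]
  refine prod_congr rfl fun i _ => ?_
  simp

theorem eval_cf_zero {t : ℕ} {z : ℤ} (h : z.natAbs < t) : (cf t).eval z = 0 := by
  rw [eval_cf]
  refine prod_eq_zero (mem_range.2 h) ?_
  rw [Int.natCast_natAbs, sq_abs, sub_self]

theorem eval_cf_self (s : ℕ) : 2 * (cf (s + 1)).eval ((s + 1 : ℕ) : ℤ) =
    ((2 * (s + 1)).factorial : ℤ) := by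
  rw [eval_cf]
  have h1 : ∏ i ∈ range (s + 1), ((((s + 1 : ℕ) : ℤ)) ^ 2 - (i : ℤ) ^ 2) =
      ((∏ i ∈ range (s + 1), (s + 1 - i) : ℕ) : ℤ) *
        ((∏ i ∈ range (s + 1), (s + 1 + i) : ℕ) : ℤ) := by
    rw [← Nat.cast_mul, ← prod_mul_distrib, Nat.cast_prod]
    refine prod_congr rfl fun i hi => ?_
    rw [Nat.cast_mul, Nat.cast_sub (mem_range.1 hi).le]
    push_cast
    ring
  have h2 : ∏ i ∈ range (s + 1), (s + 1 - i) = (s + 1).factorial := by
    rw [← prod_range_add_one_eq_factorial, ← prod_range_reflect]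
    refine prod_congr rfl fun i hi => ?_
    have := mem_range.1 hi
    omega
  have h3 : ∏ i ∈ range (s + 1), (s + 1 + i) = (s + 1).ascFactorial (s + 1) :=
    (Nat.ascFactorial_eq_prod_range _ _).symm
  have h4 := Nat.factorial_mul_ascFactorial s (s + 1)
  rw [h1, h2, h3, ← Nat.cast_mul]
  have h5 : 2 * ((s + 1).factorial * (s + 1).ascFactorial (s + 1)) = (2 * (s + 1)).factorial := by
    have h6 : 2 * (s + 1) = (s + (s + 1)) + 1 := by ring
    rw [h6, Nat.factorial_succ (s + (s + 1)), ← h4, Nat.factorial_succ s]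
    ring
  rw [← h5]
  push_cast
  ring

theorem lam (t r : ℕ) (hr : r ≤ t) : ∑ i ∈ range (r + 1), ∑ j ∈ range (r + 1),
      (-1 : ℤ) ^ i * (r.choose i : ℤ) * ((-1) ^ j * (r.choose j : ℤ)) * (cf t).eval ((j : ℤ) - i) =
    if r = t then (-1) ^ t * ((2 * t).factorial : ℤ) else 0 := by
  rcases hr.eq_or_lt with rfl | h
  · rw [if_pos rfl]
    rcases Nat.eq_zero_or_pos r with rfl | hpos
    · simp [cf]
    · obtain ⟨s, rfl⟩ : ∃ s, r = s + 1 := ⟨r - 1, by omega⟩
      rw [sum_range_succ, sum_eq_single 0, sum_eq_single (s + 1), sum_eq_single 0]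
      · rw [← eval_cf_self]
        have h1 : (cf (s + 1)).eval (((0 : ℕ) : ℤ) - ((s + 1 : ℕ) : ℤ)) =
            (cf (s + 1)).eval ((s + 1 : ℕ) : ℤ) := by
          rw [eval_cf, eval_cf]
          refine prod_congr rfl fun i _ => ?_
          push_cast
          ring
        rw [h1, Nat.choose_self, Nat.choose_zero_right, Nat.cast_zero, sub_zero]
        push_cast
        ring
      · intro j hj hj0
        have := mem_range.1 hj
        rw [eval_cf_zero (by omega), mul_zero]
      · intro h1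
        exact absurd (mem_range.2 (by omega)) h1
      · intro j hj hj0
        have := mem_range.1 hj
        rw [eval_cf_zero (by omega), mul_zero]
      · intro h1
        exact absurd (mem_range.2 (by omega)) h1
      · intro i hi hi0
        refine sum_eq_zero fun j hj => ?_
        have := mem_range.1 hj
        have := mem_range.1 hi
        rw [eval_cf_zero (by omega), mul_zero]
      · intro h1
        exact absurd (mem_range.2 (by omega)) h1
  · rw [if_neg h.ne]
    refine sum_eq_zero fun i hi => sum_eq_zero fun j hj => ?_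
    have h1 := mem_range.1 hi
    have h2 := mem_range.1 hj
    rw [eval_cf_zero (by omega), mul_zero]

theorem lam_hit (t u r : ℕ) (hr : r ≤ t) : ∑ d ∈ range (2 * t + 1), (cf t).coeff d *
      ∑ n ∈ range (d + 1), (-1 : ℤ) ^ n * (d.choose n : ℤ) * (hit (d - n) u r * hit n u r) =
    if r = t then (-1) ^ t * ((2 * t).factorial : ℤ) else 0 := by
  rw [← lam t r hr]
  have h1 : ∀ d ∈ range (2 * t + 1), (cf t).coeff d *
      ∑ n ∈ range (d + 1), (-1 : ℤ) ^ n * (d.choose n : ℤ) * (hit (d - n) u r * hit n u r) =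
      ∑ i ∈ range (r + 1), ∑ j ∈ range (r + 1), (-1) ^ i * (r.choose i : ℤ) *
      ((-1) ^ j * (r.choose j : ℤ)) * ((cf t).coeff d * ((j : ℤ) - i) ^ d) := by
    intro d _
    rw [conv, mul_sum]
    refine sum_congr rfl fun i _ => ?_
    rw [mul_sum]
    exact sum_congr rfl fun j _ => by ring
  rw [sum_congr rfl h1, sum_comm]
  refine sum_congr rfl fun i _ => ?_
  rw [sum_comm]
  refine sum_congr rfl fun j _ => ?_
  rw [← mul_sum, Polynomial.eval_eq_sum_range' (natDegree_cf t)]

/-- **The number of partial orders from the numbers of regular matrices.** -/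
theorem posets_formula (t : ℕ) : (-1 : ℚ) ^ t * ((2 * t).factorial : ℚ) / (t.factorial : ℚ) *
      ((posets t).card : ℚ) =
    ∑ d ∈ range (2 * t + 1), ((cf t).coeff d : ℚ) *
      ∑ n ∈ range (d + 1), (-1 : ℚ) ^ n * (d.choose n : ℚ) * (R (d - n) n : ℚ) := by
  have h1 : ∀ d ∈ range (2 * t + 1), ((cf t).coeff d : ℚ) *
      ∑ n ∈ range (d + 1), (-1 : ℚ) ^ n * (d.choose n : ℚ) * (R (d - n) n : ℚ) =
      ∑ r ∈ range (t + 1), ∑ p ∈ posets r, (((cf t).coeff d : ℚ) *
        ∑ n ∈ range (d + 1), (-1 : ℚ) ^ n * (d.choose n : ℚ) *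
          ((hit (d - n) (downs p) r : ℚ) * (hit n (downs p) r : ℚ))) / (r.factorial : ℚ) := by
    intro d hd
    have hd' := mem_range.1 hd
    have h2 : ∀ n ∈ range (d + 1), (-1 : ℚ) ^ n * (d.choose n : ℚ) * (R (d - n) n : ℚ) =
        ∑ r ∈ range (t + 1), ∑ p ∈ posets r, (-1 : ℚ) ^ n * (d.choose n : ℚ) *
          ((hit (d - n) (downs p) r : ℚ) * (hit n (downs p) r : ℚ)) / (r.factorial : ℚ) := by
      intro n hn
      have hn' := mem_range.1 hn
      rw [R_formula' (t := t) (by omega), mul_sum]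
      refine sum_congr rfl fun r _ => ?_
      rw [sum_div, mul_sum]
      exact sum_congr rfl fun p _ => by ring
    rw [sum_congr rfl h2, sum_comm, mul_sum]
    refine sum_congr rfl fun r _ => ?_
    rw [sum_comm, mul_sum]
    refine sum_congr rfl fun p _ => ?_
    rw [← sum_div, mul_div_assoc]
  rw [sum_congr rfl h1, sum_comm, sum_eq_single t]
  · rw [sum_comm]
    have h3 : ∀ p ∈ posets t, ∑ d ∈ range (2 * t + 1), (((cf t).coeff d : ℚ) *
        ∑ n ∈ range (d + 1), (-1 : ℚ) ^ n * (d.choose n : ℚ) *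
          ((hit (d - n) (downs p) t : ℚ) * (hit n (downs p) t : ℚ))) / (t.factorial : ℚ) =
        (-1 : ℚ) ^ t * ((2 * t).factorial : ℚ) / (t.factorial : ℚ) := by
      intro p _
      rw [← sum_div]
      have h4 := congrArg (Int.cast (R := ℚ)) (lam_hit t (downs p) t le_rfl)
      rw [if_pos rfl] at h4
      push_cast at h4
      rw [h4]
    rw [sum_congr rfl h3, sum_const, nsmul_eq_mul]
    ring
  · intro r hr hrt
    have hr' := mem_range.1 hr
    rw [sum_comm]
    refine sum_eq_zero fun p _ => ?_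
    rw [← sum_div]
    have h4 := congrArg (Int.cast (R := ℚ)) (lam_hit t (downs p) r (by omega))
    rw [if_neg hrt] at h4
    push_cast at h4
    rw [h4, zero_div]
  · intro h1
    exact absurd (mem_range.2 (Nat.lt_succ_self t)) h1

end RegBool
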