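import Pool.Agent.Lib.MP_8251dc_co.Hit
import Pool.Agent.Lib.MP_8251dc_co.Bij

/-!
# The number of regular Boolean matrices of given row rank
-/

set_option autoImplicit false

open Finset

namespace RegBool

variable {m n r : ℕ}

/-- The enumerations of a set with `r` elements. -/
theorem card_enum {Z : Type} [Fintype Z] [DecidableEq Z] (T : Finset Z) (hT : T.card = r) :
    (univ.filter fun e : Fin r → Z => Function.Injective e ∧ univ.image e = T).card =
      r.factorial := by
  classical
  have h1 : Fintype.card (Fin r ≃ {z // z ∈ T}) = r.factorial := by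
    rw [Fintype.card_equiv (Fintype.equivOfCardEq (by rw [Fintype.card_fin, Fintype.card_coe, hT])),
      Fintype.card_fin]
  rw [← h1, ← card_univ]
  symm
  refine card_bij (fun e _ i => (e i : Z)) ?_ ?_ ?_
  · intro e _
    refine mem_filter.2 ⟨mem_univ _, ?_, ?_⟩
    · intro a b hab
      exact e.injective (Subtype.ext hab)
    · ext z
      rw [mem_image]
      constructor
      · rintro ⟨i, -, rfl⟩
        exact (e i).2
      · intro hz
        exact ⟨e.symm ⟨z, hz⟩, mem_univ _, by rw [Equiv.apply_symm_apply]⟩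
  · intro e _ e' _ h
    ext i
    exact congrFun h i
  · intro f hf
    obtain ⟨-, h2, h3⟩ := mem_filter.1 hf
    have h4 : ∀ i, f i ∈ T := fun i => by
      rw [← h3]
      exact mem_image_of_mem _ (mem_univ _)
    refine ⟨Equiv.ofBijective (fun i => ⟨f i, h4 i⟩) ⟨fun a b hab => h2 (congrArg Subtype.val hab),
      fun z => ?_⟩, mem_univ _, rfl⟩
    obtain ⟨z, hz⟩ := z
    rw [← h3, mem_image] at hz
    obtain ⟨i, -, hi⟩ := hz
    exact ⟨i, Subtype.ext hi⟩

theorem card_S2 (m n r : ℕ) : (S2 m n r).card =
    r.factorial * Nat.card {A : Fin m → Fin n → Bool // Regular A ∧ rowRank A = r} := by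
  classical
  rw [Nat.card_eq_fintype_card, Fintype.card_subtype,
    card_eq_sum_card_fiberwise (f := Prod.fst)
      (t := univ.filter fun A : Fin m → Fin n → Bool => Regular A ∧ rowRank A = r)]
  · rw [mul_comm, ← smul_eq_mul, ← sum_const]
    refine sum_congr rfl fun A hA => ?_
    obtain ⟨-, hR, hr⟩ := mem_filter.1 hA
    rw [← card_enum (basisRows A) hr]
    refine card_bij' (fun y _ => y.2) (fun e _ => (A, e)) ?_ ?_ ?_ ?_
    · rintro ⟨A', e⟩ hy
      obtain ⟨h1, h2⟩ := mem_filter.1 hy
      obtain ⟨-, -, h3, h4⟩ := mem_filter.1 h1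
      have h5 : A' = A := h2
      subst h5
      refine mem_filter.2 ⟨mem_univ _, h3, ?_⟩
      rw [← h4]
    · intro e he
      obtain ⟨-, h3, h4⟩ := mem_filter.1 he
      refine mem_filter.2 ⟨mem_filter.2 ⟨mem_univ _, hR, h3, ?_⟩, rfl⟩
      rw [← h4]
    · rintro ⟨A', e⟩ hy
      obtain ⟨-, h2⟩ := mem_filter.1 hy
      have h5 : A' = A := h2
      rw [h5]
    · intro e _
      rfl
  · rintro ⟨A, e⟩ hy
    obtain ⟨-, hR, he, hA⟩ := mem_filter.1 hy
    refine mem_filter.2 ⟨mem_univ _, hR, ?_⟩
    have h1 : (univ.image e).card = r := by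
      rw [card_image_of_injective _ he, card_univ, Fintype.card_fin]
    change (basisRows A).card = r
    exact (congrArg card hA.symm).trans h1

open Classical in
theorem card_F {p : Fin r → Fin r → Bool} (hp : p ∈ posets r) :
    ((univ.filter fun f : Fin m → Finset (Fin r) => IsF p f).card : ℤ) = hit m (downs p) r := by
  obtain ⟨-, h1, h2, h3⟩ := mem_filter.1 hp
  have h := card_hit_mem (Z := Finset (Fin r)) m r
    (univ.filter fun S : Finset (Fin r) => ∀ i j, p i j = true → j ∈ S → i ∈ S) (dn p) ?_ ?_
  · unfold downs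
    convert h using 2
    congr 1
    ext f
    rw [mem_filter, mem_filter]
    unfold IsF
    simp only [mem_filter, mem_univ, true_and]
  · intro a b hab
    apply h2
    · have : a ∈ dn p b := by
        rw [← hab, mem_dn]
        exact h1 a
      exact mem_dn.1 this
    · have : b ∈ dn p a := by
        rw [hab, mem_dn]
        exact h1 b
      exact mem_dn.1 this
  · intro l
    refine mem_filter.2 ⟨mem_univ _, fun i j hij hj => ?_⟩
    rw [mem_dn] at hj ⊢
    exact h3 i j l hij hj

open Classical in
theorem card_G {p : Fin r → Fin r → Bool} (hp : p ∈ posets r) :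
    ((univ.filter fun g : Fin n → Finset (Fin r) => IsG p g).card : ℤ) = hit n (downs p) r := by
  obtain ⟨-, h1, h2, h3⟩ := mem_filter.1 hp
  have h := card_hit_mem (Z := Finset (Fin r)) n r
    (univ.filter fun S : Finset (Fin r) => ∀ i j, p i j = true → i ∈ S → j ∈ S) (up p) ?_ ?_
  · have h5 : (univ.filter fun S : Finset (Fin r) => ∀ i j, p i j = true → i ∈ S → j ∈ S).card =
        downs p := by
      unfold downs
      refine card_bij' (fun S _ => Sᶜ) (fun S _ => Sᶜ) ?_ ?_ (fun S _ => compl_compl S)
        (fun S _ => compl_compl S)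
      · intro S hS
        refine mem_filter.2 ⟨mem_univ _, fun i j hij hj => ?_⟩
        rw [mem_compl] at hj ⊢
        exact fun hi => hj ((mem_filter.1 hS).2 i j hij hi)
      · intro S hS
        refine mem_filter.2 ⟨mem_univ _, fun i j hij hj => ?_⟩
        rw [mem_compl] at hj ⊢
        exact fun hi => hj ((mem_filter.1 hS).2 i j hij hi)
    rw [h5] at h
    rw [← h]
    congr 2
    ext f
    rw [mem_filter, mem_filter]
    unfold IsG
    simp only [mem_filter, mem_univ, true_and]
  · intro a b hab
    apply h2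
    · have : b ∈ up p a := by
        rw [hab, mem_up]
        exact h1 b
      exact mem_up.1 this
    · have : a ∈ up p b := by
        rw [← hab, mem_up]
        exact h1 a
      exact mem_up.1 this
  · intro l
    refine mem_filter.2 ⟨mem_univ _, fun i j hij hj => ?_⟩
    rw [mem_up] at hj ⊢
    exact h3 l i j hj hij

open Classical in
theorem card_S1 (m n r : ℕ) : (S1 m n r).card = ∑ p ∈ posets r,
    (univ.filter fun f : Fin m → Finset (Fin r) => IsF p f).card *
      (univ.filter fun g : Fin n → Finset (Fin r) => IsG p g).card := by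
  rw [card_eq_sum_card_fiberwise (f := Prod.fst) (t := posets r)]
  · refine sum_congr rfl fun p hp => ?_
    rw [← card_product]
    refine card_bij' (fun x _ => x.2) (fun y _ => (p, y)) ?_ ?_ ?_ ?_
    · rintro ⟨p', f, g⟩ hx
      obtain ⟨h1, h2⟩ := mem_filter.1 hx
      obtain ⟨-, -, h3, h4⟩ := mem_filter.1 h1
      have h5 : p' = p := h2
      subst h5
      exact mem_product.2 ⟨mem_filter.2 ⟨mem_univ _, h3⟩, mem_filter.2 ⟨mem_univ _, h4⟩⟩
    · rintro ⟨f, g⟩ hy
      obtain ⟨h1, h2⟩ := mem_product.1 hy
      exact mem_filter.2 ⟨mem_filter.2 ⟨mem_univ _, hp, (mem_filter.1 h1).2, (mem_filter.1 h2).2⟩,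
        rfl⟩
    · rintro ⟨p', f, g⟩ hx
      obtain ⟨-, h2⟩ := mem_filter.1 hx
      have h5 : p' = p := h2
      rw [h5]
    · intro y _
      rfl
  · rintro ⟨p, f, g⟩ hx
    obtain ⟨-, h1, -⟩ := mem_filter.1 hx
    exact h1

/-- **The number of regular `m × n` Boolean matrices of row rank `r`.** -/
theorem card_rank (m n r : ℕ) :
    (r.factorial : ℤ) * (Nat.card {A : Fin m → Fin n → Bool // Regular A ∧ rowRank A = r} : ℤ) =
      ∑ p ∈ posets r, hit m (downs p) r * hit n (downs p) r := by
  classical
  have h1 : (r.factorial : ℤ) *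
      (Nat.card {A : Fin m → Fin n → Bool // Regular A ∧ rowRank A = r} : ℤ) =
        ((S1 m n r).card : ℤ) := by
    rw [card_S1_eq_card_S2, card_S2]
    push_cast
    rfl
  rw [h1, card_S1, Nat.cast_sum]
  refine sum_congr rfl fun p hp => ?_
  rw [Nat.cast_mul, card_F hp, card_G hp]

theorem rowRank_le (A : Fin m → Fin n → Bool) : rowRank A ≤ m := by
  classical
  unfold rowRank
  have h1 : basisRows A ⊆ univ.image A := by
    intro v hv
    obtain ⟨⟨i, hi⟩, -⟩ := mem_basisRows.1 hv
    rw [← hi]
    exact mem_image_of_mem _ (mem_univ _)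
  refine (card_le_card h1).trans (card_image_le.trans ?_)
  rw [card_univ, Fintype.card_fin]

theorem R_eq_sum (m n : ℕ) : R m n = ∑ r ∈ range (m + 1),
    Nat.card {A : Fin m → Fin n → Bool // Regular A ∧ rowRank A = r} := by
  classical
  unfold R
  rw [Nat.card_eq_fintype_card, Fintype.card_subtype,
    card_eq_sum_card_fiberwise (f := rowRank) (t := range (m + 1))]
  · refine sum_congr rfl fun r _ => ?_
    rw [Nat.card_eq_fintype_card, Fintype.card_subtype, filter_filter]
  · intro A _
    exact mem_coe.2 (mem_range.2 (Nat.lt_succ_of_le (rowRank_le A)))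

/-- **The number of regular Boolean matrices.** -/
theorem R_formula (m n : ℕ) : (R m n : ℚ) = ∑ r ∈ range (m + 1),
    (∑ p ∈ posets r, (hit m (downs p) r : ℚ) * (hit n (downs p) r : ℚ)) / r.factorial := by
  rw [R_eq_sum, Nat.cast_sum]
  refine sum_congr rfl fun r _ => ?_
  have h1 : (r.factorial : ℚ) ≠ 0 := by exact_mod_cast r.factorial_ne_zero
  rw [eq_div_iff h1, mul_comm]
  have h2 := congrArg (Int.cast (R := ℚ)) (card_rank m n r)
  push_cast at h2
  rw [h2]

end RegBool
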