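import Pool.Agent.Lib.MP_8251dc_co.Main

/-!
# The number of regular Boolean matrices with a given partial order of the row basis
-/

set_option autoImplicit false

open Finset

namespace RegBool

variable {m n r : ℕ}

theorem ord_eq {p : Fin r → Fin r → Bool} {e : Fin r → Fin n → Bool} :
    ord e = p ↔ ∀ i j, p i j = true ↔ e i ≤ e j := by
  constructor
  · rintro rfl i j
    exact ord_true
  · intro h
    funext i j
    exact Bool.eq_iff_iff.2 (ord_true.trans (h i j).symm)

open Classical in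
theorem card_fib (p : Fin r → Fin r → Bool) :
    ((S1 m n r).filter fun x => x.1 = p).card = ((S2 m n r).filter fun y => ord y.2 = p).card := by
  refine card_bij' (fun x _ => (mat x.2.1 x.2.2, row x.2.2))
    (fun y _ => (ord y.2, lo y.1 y.2, co y.2)) ?_ ?_ ?_ ?_
  · rintro ⟨p', f, g⟩ hx
    obtain ⟨hx, h1⟩ := mem_filter.1 hx
    obtain ⟨-, hp, hf, hg⟩ := mem_filter.1 hx
    refine mem_filter.2 ⟨mem_filter.2 ⟨mem_univ _, regular_mat hp hf hg, row_inj hp hg, ?_⟩, ?_⟩
    · rw [← basis_mat hp hf hg]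
    · rw [← h1]
      funext a b
      exact Bool.eq_iff_iff.2 (ord_true.trans (row_le hp hg a b))
  · rintro ⟨A, e⟩ hy
    obtain ⟨hy, h1⟩ := mem_filter.1 hy
    obtain ⟨-, hR, he, hA⟩ := mem_filter.1 hy
    have hA' : univ.image e = basisRows A := by
      rw [← hA]
    exact mem_filter.2 ⟨mem_filter.2 ⟨mem_univ _, ord_mem he, isF_lo hA', isG_co hR hA'⟩, h1⟩
  · rintro ⟨p', f, g⟩ hx
    obtain ⟨hx, h1⟩ := mem_filter.1 hx
    obtain ⟨-, hp, hf, hg⟩ := mem_filter.1 hx
    refine Prod.ext ?_ (Prod.ext ?_ ?_)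
    · funext a b
      exact Bool.eq_iff_iff.2 (ord_true.trans (row_le hp hg a b))
    · funext i
      ext l
      exact mem_lo.trans (mem_f hp hf hg l i)
    · funext j
      ext l
      exact mem_co.trans row_true
  · rintro ⟨A, e⟩ hy
    obtain ⟨hy, h1⟩ := mem_filter.1 hy
    obtain ⟨-, hR, he, hA⟩ := mem_filter.1 hy
    have hA' : univ.image e = basisRows A := by
      rw [← hA]
    refine Prod.ext ?_ ?_
    · funext i j
      rw [Bool.eq_iff_iff]
      change mat (lo A e) (co e) i j = true ↔ A i j = true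
      rw [mat_true]
      constructor
      · rintro ⟨l, h1, h2⟩
        rw [mem_lo] at h1
        rw [mem_co] at h2
        exact le_iff.1 h1 j h2
      · intro h
        obtain ⟨l, h1, h2⟩ := row_union hA' j (A i) ⟨i, rfl⟩ h
        exact ⟨l, mem_lo.2 h1, mem_co.2 h2⟩
    · funext l j
      exact Bool.eq_iff_iff.2 (row_true.trans mem_co)

open Classical in
theorem card_fib1 {p : Fin r → Fin r → Bool} (hp : p ∈ posets r) :
    (((S1 m n r).filter fun x => x.1 = p).card : ℤ) = hit m (downs p) r * hit n (downs p) r := by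
  rw [← card_F hp, ← card_G hp, ← Nat.cast_mul, ← card_product]
  congr 1
  refine card_bij' (fun x _ => x.2) (fun y _ => (p, y)) ?_ ?_ ?_ ?_
  · rintro ⟨p', f, g⟩ hx
    obtain ⟨h1, h2⟩ := mem_filter.1 hx
    obtain ⟨-, -, h3, h4⟩ := mem_filter.1 h1
    have h5 : p' = p := h2
    subst h5
    exact mem_product.2 ⟨mem_filter.2 ⟨mem_univ _, h3⟩, mem_filter.2 ⟨mem_univ _, h4⟩⟩
  · rintro ⟨f, g⟩ hy
    obtain ⟨h1, h2⟩ := mem_product.1 hy
    exact mem_filter.2 ⟨mem_filter.2 ⟨mem_univ _, hp, (mem_filter.1 h1).2, (mem_filter.1 h2).2⟩,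
      rfl⟩
  · rintro ⟨p', f, g⟩ hx
    obtain ⟨-, h2⟩ := mem_filter.1 hx
    have h5 : p' = p := h2
    rw [h5]
  · intro y _
    rfl

open Classical in
/-- The enumerations which give the order `p` are permuted by the automorphisms of `p`. -/
theorem card_aut {p : Fin r → Fin r → Bool} {A : Fin m → Fin n → Bool} (hA : HasType A p) :
    (univ.filter fun e : Fin r → Fin n → Bool => Function.Injective e ∧
      univ.image e = basisRows A ∧ ord e = p).card = aut p := by
  obtain ⟨e0, h0, h1, h2⟩ := hA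
  unfold aut
  symm
  refine card_bij (fun σ _ i => e0 (σ i)) ?_ ?_ ?_
  · intro σ hσ
    have hσ' := (mem_filter.1 hσ).2
    refine mem_filter.2 ⟨mem_univ _, fun a b hab => σ.injective (h0 hab), ?_, ?_⟩
    · rw [← h1]
      ext v
      rw [mem_image, mem_image]
      constructor
      · rintro ⟨i, -, rfl⟩
        exact ⟨σ i, mem_univ _, rfl⟩
      · rintro ⟨i, -, rfl⟩
        exact ⟨σ.symm i, mem_univ _, by rw [Equiv.apply_symm_apply]⟩
    · rw [ord_eq]
      intro i j
      rw [← hσ' i j]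
      exact h2 (σ i) (σ j)
  · intro σ _ τ _ h
    ext i
    exact congrArg Fin.val (h0 (congrFun h i))
  · intro e he
    obtain ⟨-, h3, h4, h5⟩ := mem_filter.1 he
    have h6 : ∀ i, ∃ j, e0 j = e i := by
      intro i
      have h7 : e i ∈ univ.image e := mem_image_of_mem _ (mem_univ _)
      have h8 : e i ∈ basisRows A := h4 ▸ h7
      rw [← h1] at h8
      obtain ⟨j, -, hj⟩ := mem_image.1 h8
      exact ⟨j, hj⟩
    choose s hs using h6
    have hs1 : Function.Injective s := by
      intro a b hab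
      apply h3
      rw [← hs a, ← hs b, hab]
    refine ⟨Equiv.ofBijective s ((Finite.injective_iff_bijective).1 hs1), ?_, ?_⟩
    · refine mem_filter.2 ⟨mem_univ _, fun i j => ?_⟩
      rw [Bool.eq_iff_iff]
      change p (s i) (s j) = true ↔ p i j = true
      rw [h2, hs, hs]
      exact ((ord_eq.1 h5) i j).symm
    · funext i
      exact hs i

open Classical in
theorem card_fib2 (p : Fin r → Fin r → Bool) : ((S2 m n r).filter fun y => ord y.2 = p).card =
    aut p * Nat.card {A : Fin m → Fin n → Bool // Regular A ∧ HasType A p} := by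
  rw [Nat.card_eq_fintype_card, Fintype.card_subtype,
    card_eq_sum_card_fiberwise (f := Prod.fst)
      (t := univ.filter fun A : Fin m → Fin n → Bool => Regular A ∧ HasType A p)]
  · rw [mul_comm, ← smul_eq_mul, ← sum_const]
    refine sum_congr rfl fun A hA => ?_
    obtain ⟨-, hR, hr⟩ := mem_filter.1 hA
    rw [← card_aut hr]
    refine card_bij' (fun y _ => y.2) (fun e _ => (A, e)) ?_ ?_ ?_ ?_
    · rintro ⟨A', e⟩ hy
      obtain ⟨h1, h2⟩ := mem_filter.1 hy
      obtain ⟨h1, h6⟩ := mem_filter.1 h1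
      obtain ⟨-, -, h3, h4⟩ := mem_filter.1 h1
      have h5 : A' = A := h2
      subst h5
      refine mem_filter.2 ⟨mem_univ _, h3, ?_, h6⟩
      rw [← h4]
    · intro e he
      obtain ⟨-, h3, h4, h6⟩ := mem_filter.1 he
      refine mem_filter.2 ⟨mem_filter.2 ⟨mem_filter.2 ⟨mem_univ _, hR, h3, ?_⟩, h6⟩, rfl⟩
      rw [← h4]
    · rintro ⟨A', e⟩ hy
      obtain ⟨-, h2⟩ := mem_filter.1 hy
      have h5 : A' = A := h2
      rw [h5]
    · intro e _
      rfl
  · rintro ⟨A, e⟩ hy
    obtain ⟨hy, h1⟩ := mem_filter.1 hy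
    obtain ⟨-, hR, he, hA⟩ := mem_filter.1 hy
    refine mem_filter.2 ⟨mem_univ _, hR, e, he, ?_, ord_eq.1 h1⟩
    rw [← hA]

/-- **The number of regular `m × n` matrices whose row basis is isomorphic to `p`.** -/
theorem formula_type {p : Fin r → Fin r → Bool} (hp : p ∈ posets r) :
    (aut p : ℤ) * (Nat.card {A : Fin m → Fin n → Bool // Regular A ∧ HasType A p} : ℤ) =
      hit m (downs p) r * hit n (downs p) r := by
  classical
  rw [← card_fib1 hp, card_fib, card_fib2, Nat.cast_mul]

end RegBool
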